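import Mathlib
import Pool.Agent.H10.DsB

set_option autoImplicit false

namespace Pool.Agent.Results.MP_f2a48e_co.Superlinear
open Pool.Agent.H10.Ds Filter

theorem result : Tendsto (fun n : ℕ => (ex n P0 : ℝ) / n) atTop atTop ∧
    ∀ m : ℕ, 1 ≤ m → √(m : ℝ) ≤ sm m P0 ∧ (sm m P0 : ℝ) ≤ 6 * √(m : ℝ) :=
  ⟨ex_tendsto, sm_bounds⟩

end Pool.Agent.Results.MP_f2a48e_co.Superlinear
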